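import Pool.Agent.Helper71.JN.SheetB

set_option autoImplicit false

namespace Pool.Agent.Helper9.JN

open Pool.Agent.Helper71.JN Polynomial

section

variable {F Ω : Type} [Field F] [Field Ω] [CharZero Ω] [Algebra F Ω] {I : Type} [Fintype I] {r : ℕ}

theorem nu_nat (D : SSF F Ω I r) (i : I) (n : ℕ) (hn : n ≠ 0) : D.nu i (n : Ω) = 1 := by
  have h := D.F1 i (n : F) (by
    intro h0
    have h1 : algebraMap F Ω (n : F) = 0 := by rw [h0, map_zero]
    rw [map_natCast] at h1
    exact hn (by exact_mod_cast h1))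
  rwa [map_natCast] at h

/-- conjugates over `K` -/
theorem conj_le (D : SSF F Ω I r) (hP : ST_PRIM) (b p c : Ω) (hb : b ∉ D.K) (hb2 : b ^ 2 ∈ D.K)
    (hp : p ∈ D.K) (hc : c ∈ D.K) (hz : p + c * b ∈ D.O) :
    2 * p ∈ D.R ∧ (∀ i, D.nu i (2 * p) ≤ D.nu i (p + c * b)) ∧
      ∀ i, D.nu i (p - c * b) ≤ D.nu i (p + c * b) := by
  have key : 2 * p ∈ D.R ∧ (∀ i, D.nu i (2 * p) ≤ D.nu i (p + c * b)) := by
    by_cases hc0 : c = 0
    · subst hc0
      have hz' : p ∈ D.O := by simpa using hz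
      have hint : IsIntegral D.K p := by
        have := isIntegral_algebraMap (R := D.K) (A := Ω) (x := ⟨p, hp⟩)
        exact this
      have hmin : minpoly D.K p = X - C (⟨p, hp⟩ : D.K) := by
        have := minpoly.eq_X_sub_C (A := D.K) (B := Ω) (⟨p, hp⟩ : D.K)
        exact this
      obtain ⟨h1, h2⟩ := hP F Ω I r D p hz' hint 0
      rw [hmin] at h1 h2
      simp only [coeff_sub, coeff_X_zero, coeff_C_zero, zero_sub, natDegree_X_sub_C] at h1 h2
      have h1' : -p ∈ D.R := by simpa using h1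
      have h3 : p ∈ D.R := by simpa using D.R.neg_mem h1'
      refine ⟨?_, fun i => ?_⟩
      · rw [two_mul]; exact D.R.add_mem h3 h3
      · have := nu_nat D i 2 (by norm_num)
        have h4 : D.nu i (2 * p) = D.nu i p := by
          rw [map_mul]
          have : D.nu i (2 : Ω) = 1 := by exact_mod_cast this
          rw [this, one_mul]
        rw [h4]; simp
    · have hzK : p + c * b ∉ D.K := by
        intro h
        apply hb
        have h1 : c * b ∈ D.K := by
          have := D.K.sub_mem h hp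
          simpa using this
        have h2 := D.K.mul_mem (D.K.inv_mem hc) h1
        rwa [inv_mul_cancel_left₀ hc0] at h2
      set P : D.K := ⟨p, hp⟩
      set N : D.K := ⟨p ^ 2 - c ^ 2 * b ^ 2, D.K.sub_mem (pow_mem hp 2)
        (D.K.mul_mem (pow_mem hc 2) hb2)⟩
      set q : Polynomial D.K := X ^ 2 - C (2 * P) * X + C N with hq
      have hqd : q.natDegree = 2 := by
        rw [hq]; compute_degree!
      have hqm : q.Monic := by
        rw [hq]; monicity!
      have hq0 : aeval (p + c * b) q = 0 := by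
        rw [hq]
        simp only [map_add, map_sub, map_mul, aeval_X, aeval_C, map_pow]
        have e1 : algebraMap D.K Ω P = p := rfl
        have e2 : algebraMap D.K Ω N = p ^ 2 - c ^ 2 * b ^ 2 := by
          rw [IntermediateField.algebraMap_apply]
        have e3 : algebraMap D.K Ω (2 * P) = 2 * p := by rw [map_mul, map_ofNat, e1]
        rw [← map_mul, e3, e2]; ring
      have hint : IsIntegral D.K (p + c * b) := ⟨q, hqm, hq0⟩
      have hdeg : 2 ≤ (minpoly D.K (p + c * b)).natDegree := by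
        rw [minpoly.two_le_natDegree_iff hint]
        rintro ⟨k, hk⟩
        exact hzK (by rw [← hk]; exact k.2)
      have hmin : minpoly D.K (p + c * b) = q := by
        have hdvd : minpoly D.K (p + c * b) ∣ q := minpoly.dvd _ _ hq0
        refine (Polynomial.eq_of_monic_of_dvd_of_natDegree_le (minpoly.monic hint) hqm hdvd ?_).symm
        rw [hqd]; exact hdeg
      obtain ⟨h1, h2⟩ := hP F Ω I r D (p + c * b) hz hint 1
      rw [hmin] at h1 h2
      rw [hqd] at h2
      have hco : ((q.coeff 1 : D.K) : Ω) = -(2 * p) := by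
        rw [hq]
        simp only [coeff_add, coeff_sub, coeff_X_pow, coeff_C_mul, coeff_X_one, coeff_C]
        simp
        rfl
      rw [hco] at h1
      refine ⟨by simpa using D.R.neg_mem h1, fun i => ?_⟩
      have h3 := h2 i
      rw [hco] at h3
      simpa using h3
  refine ⟨key.1, key.2, fun i => ?_⟩
  have : p - c * b = 2 * p - (p + c * b) := by ring
  rw [this]
  have h1 := D.ult i (2 * p) (-(p + c * b))
  rw [← sub_eq_add_neg] at h1
  refine h1.trans (max_le (key.2 i) ?_)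
  rw [AbsoluteValue.map_neg]

end

theorem N2A (hIZ : ST_IZ) (hP : ST_PRIM) (hRIC : ST_RIC) (hRK : ST_RK) : ST_N2A := by
  intro F Ω _ _ _ _ I _ r D J α β x y R R' H hint hq hdeg
  obtain ⟨q, hq⟩ := hq
  obtain ⟨-, -, -, -, -, hRO, hRKm, -, -, -, -, -, -, hpf, -, -, -⟩ := hRK F Ω I r D
  -- the minimal polynomial
  have hmon := minpoly.monic hint
  set T : D.K := -(minpoly D.K x).coeff 1 with hT
  set n : D.K := (minpoly D.K x).coeff 0 with hn
  have hmp : minpoly D.K x = X ^ 2 - C T * X + C n := by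
    have h1 := hmon.as_sum
    rw [hdeg] at h1
    rw [h1, hT, hn]
    simp [Finset.sum_range_succ]
    ring
  have hTR : (T : Ω) ∈ D.R := by
    have := (hP F Ω I r D x H.xO hint 1).1
    have := D.R.neg_mem this
    simpa [hT] using this
  have hnR : (n : Ω) ∈ D.R := (hP F Ω I r D x H.xO hint 0).1
  have hx : x ^ 2 - (T : Ω) * x + (n : Ω) = 0 := by
    have h1 := minpoly.aeval D.K x
    rw [hmp] at h1
    simp only [map_add, map_sub, map_mul, aeval_X, aeval_C, map_pow] at h1
    exact h1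
  have hxK : x ∉ D.K := by
    have h1 := (minpoly.two_le_natDegree_iff hint).1 (by rw [hdeg])
    intro h
    exact h1 ⟨⟨x, h⟩, rfl⟩
  -- reduction of q
  set q' := q %ₘ (minpoly D.K x) with hq'
  have hq'y : aeval x q' = y := by
    have h1 : aeval x q = aeval x q' := by
      rw [hq']
      exact (Polynomial.aeval_modByMonic_eq_self_of_root (minpoly.aeval D.K x)).symm
    rw [← h1, hq]
  have hq'd : q'.natDegree ≤ 1 := by
    have h1 := natDegree_modByMonic_lt q hmon (by
      intro h; rw [h] at hdeg; simp at hdeg)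
    rw [hdeg] at h1
    exact Nat.lt_succ_iff.1 h1
  set q0 : D.K := q'.coeff 0 with hq0
  set q1 : D.K := q'.coeff 1 with hq1
  have hq'e : q' = C q1 * X + C q0 := Polynomial.eq_X_add_C_of_natDegree_le_one hq'd
  have hy : y = (q0 : Ω) + (q1 : Ω) * x := by
    rw [← hq'y, hq'e]
    simp only [map_add, map_mul, aeval_X, aeval_C]
    change (q1 : Ω) * x + (q0 : Ω) = _
    ring
  -- the roots
  have hroot : ∃ a : AlgebraicClosure D.K, aeval a (minpoly D.K x) = 0 := by
    have hd : (minpoly D.K x).degree ≠ 0 := by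
      rw [Polynomial.degree_eq_natDegree hmon.ne_zero, hdeg]; norm_num
    obtain ⟨a, ha⟩ := IsAlgClosed.exists_aeval_eq_zero (AlgebraicClosure D.K) (minpoly D.K x) hd
    exact ⟨a, ha⟩
  obtain ⟨a, ha⟩ := hroot
  have ha2 : aeval (algebraMap D.K _ T - a) (minpoly D.K x) = 0 := by
    rw [hmp] at ha ⊢
    simp only [map_add, map_sub, map_mul, aeval_X, aeval_C, map_pow] at ha ⊢
    linear_combination ha
  have hIZ' := hIZ F Ω I r D J α β x y R R' H hint q' hq'y a (algebraMap D.K _ T - a) ha ha2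
  have hne : a - (algebraMap D.K (AlgebraicClosure D.K) T - a) ≠ 0 := by
    intro h
    have h1 : a = algebraMap D.K (AlgebraicClosure D.K) (T / 2) := by
      rw [map_div₀, map_ofNat]
      linear_combination h / 2
    have h2 : aeval (T / 2) (minpoly D.K x) = 0 := by
      have h3 : algebraMap D.K (AlgebraicClosure D.K) (aeval (T / 2) (minpoly D.K x)) = 0 := by
        rw [← Polynomial.aeval_algebraMap_apply, ← h1, ha]
      exact (map_eq_zero _).1 h3
    have h4 := Polynomial.degree_eq_one_of_irreducible_of_root (minpoly.irreducible hint)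
      (x := T / 2) (by simpa [IsRoot.def, aeval_def] using h2)
    rw [Polynomial.degree_eq_natDegree hmon.ne_zero, hdeg] at h4
    norm_num at h4
  have hq1T : 8 * q1 ^ 2 = 9 * T := by
    have h1 : algebraMap D.K (AlgebraicClosure D.K) (8 * q1 ^ 2) = algebraMap D.K _ (9 * T) := by
      rw [hq'e] at hIZ'
      simp only [map_add, map_mul, aeval_X, aeval_C] at hIZ'
      rw [map_mul, map_mul, map_pow, map_ofNat, map_ofNat]
      have h2 : (a - (algebraMap D.K (AlgebraicClosure D.K) T - a)) ^ 2 ≠ 0 := pow_ne_zero 2 hne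
      apply mul_right_cancel₀ h2
      linear_combination hIZ'
    exact (algebraMap D.K (AlgebraicClosure D.K)).injective h1
  -- Q, b, s
  have hq1T' : 8 * (q1 : Ω) ^ 2 = 9 * (T : Ω) := by
    have h1 : algebraMap D.K Ω (8 * q1 ^ 2) = algebraMap D.K Ω (9 * T) := by rw [hq1T]
    rw [map_mul, map_mul, map_pow, map_ofNat, map_ofNat] at h1
    exact h1
  set Q : Ω := 2 / 3 * (q1 : Ω) with hQ
  have hTQ : (T : Ω) = 2 * Q ^ 2 := by
    rw [hQ]; linear_combination (-1 / 9 : Ω) * hq1T'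
  have h2K : ∀ z : ℚ, (z : Ω) ∈ D.K := fun z => by
    have := (z : D.K).2
    simpa using this
  have hhalfR : ∀ z : Ω, 2 * z ∈ D.R → z ∈ D.R := by
    intro z hz
    have h2 : (2 : F) ≠ 0 := by
      intro h0
      have h1 : algebraMap F Ω (2 : F) = 0 := by rw [h0, map_zero]
      rw [map_ofNat] at h1
      exact two_ne_zero h1
    have h1 := D.R.smul_mem hz (2 : F)⁻¹
    rw [Algebra.smul_def, map_inv₀, map_ofNat] at h1
    rwa [inv_mul_cancel_left₀ (two_ne_zero)] at h1
  have hQK : Q ∈ D.K := by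
    rw [hQ]
    have := h2K (2 / 3)
    push_cast at this
    exact D.K.mul_mem this q1.2
  have hQ2R : Q ^ 2 ∈ D.R := hhalfR _ (by rw [← hTQ]; exact hTR)
  have hQR : Q ∈ D.R := by
    refine hRIC F Ω I r D Q hQK ?_
    refine IsIntegral.of_pow (n := 2) (by norm_num) ?_
    exact isIntegral_algebraMap (R := D.R) (A := Ω) (x := ⟨Q ^ 2, hQ2R⟩)
  set b : Ω := x - Q ^ 2 with hb
  have hbK : b ∉ D.K := by
    intro h
    apply hxK
    have : x = b + Q ^ 2 := by rw [hb]; ring
    rw [this]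
    exact D.K.add_mem h (pow_mem hQK 2)
  have hb0 : b ≠ 0 := fun h => hbK (by rw [h]; exact D.K.zero_mem)
  have hb2 : b ^ 2 = Q ^ 4 - (n : Ω) := by
    rw [hb]
    rw [hTQ] at hx
    linear_combination hx
  have hb2R : b ^ 2 ∈ D.R := by
    rw [hb2]
    refine D.R.sub_mem ?_ hnR
    exact D.R.pow_mem hQR 4
  have hb2K : b ^ 2 ∈ D.K := hRKm _ hb2R
  set s : Ω := (q0 : Ω) + 3 / 2 * Q * Q ^ 2 with hs
  have hq1Q : (q1 : Ω) = 3 / 2 * Q := by rw [hQ]; ring
  have hys : y = s + 3 / 2 * Q * b := by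
    rw [hy, hs, hb, hq1Q]; ring
  have h32 : (3 / 2 : Ω) ∈ D.K := by
    have := h2K (3 / 2)
    push_cast at this
    exact this
  have hsK : s ∈ D.K := by
    rw [hs]
    exact D.K.add_mem q0.2 (D.K.mul_mem (D.K.mul_mem h32 hQK) (pow_mem hQK 2))
  have hcK : 3 / 2 * Q ∈ D.K := D.K.mul_mem h32 hQK
  obtain ⟨hsR2, hs2, hs3⟩ := conj_le D hP b s (3 / 2 * Q) hbK hb2K hsK hcK (by
    rw [← hys]; exact H.yO)
  have hsR : s ∈ D.R := hhalfR _ hsR2
  have nu2 : ∀ (i : I) (z : Ω), D.nu i (2 * z) = D.nu i z := by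
    intro i z
    rw [map_mul]
    have : D.nu i (2 : Ω) = 1 := by exact_mod_cast nu_nat D i 2 (by norm_num)
    rw [this, one_mul]
  have nusub : ∀ (i : I) (z z' : Ω), D.nu i (z - z') ≤ max (D.nu i z) (D.nu i z') := by
    intro i z z'
    have h1 := D.ult i z (-z')
    rwa [← sub_eq_add_neg, AbsoluteValue.map_neg] at h1
  -- estimates outside J
  have hout : ∀ i, i ∉ J → D.nu i b ≤ 1 ∧ D.nu i Q ≤ 1 ∧ D.nu i s ≤ 1 := by
    intro i hi
    obtain ⟨-, h2, h3⟩ := conj_le D hP b (Q ^ 2) 1 hbK hb2K (pow_mem hQK 2) D.K.one_mem (by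
      have : Q ^ 2 + 1 * b = x := by rw [hb]; ring
      rw [this]; exact H.xO)
    have e1 : Q ^ 2 + 1 * b = x := by rw [hb]; ring
    rw [e1] at h2 h3
    have h2i := (h2 i).trans (H.fx i hi)
    have h3i := (h3 i).trans (H.fx i hi)
    rw [nu2] at h2i
    refine ⟨?_, ?_, ?_⟩
    · have : b = x - Q ^ 2 := hb
      rw [this]
      exact (nusub i _ _).trans (max_le (H.fx i hi) h2i)
    · by_contra hcon
      push Not at hcon
      have : 1 < D.nu i (Q ^ 2) := by
        rw [map_pow]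
        exact one_lt_pow₀ hcon (by norm_num)
      linarith
    · have h4 := hs2 i
      rw [nu2, ← hys] at h4
      exact h4.trans (H.fy i hi)
  -- upper estimate in J
  have hup : ∀ i ∈ J, D.nu i b ≤ Real.exp β := by
    intro i hi
    have hRi := H.RR i hi
    have e1 : (Q ^ 2 - R i ^ 2) + 1 * b = x - R i ^ 2 := by rw [hb]; ring
    obtain ⟨-, h2, h3⟩ := conj_le D hP b (Q ^ 2 - R i ^ 2) 1 hbK hb2K
      (D.K.sub_mem (pow_mem hQK 2) (pow_mem (hRKm _ hRi) 2)) D.K.one_mem (by
        rw [e1]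
        exact D.O.sub_mem H.xO (D.O.pow_mem (hRO _ hRi) 2))
    rw [e1] at h2 h3
    have h2i := (h2 i).trans (H.s2 i hi)
    rw [nu2] at h2i
    have : b = (x - R i ^ 2) - (Q ^ 2 - R i ^ 2) := by rw [hb]; ring
    rw [this]
    exact (nusub i _ _).trans (max_le (H.s2 i hi) h2i)
  -- Galois
  have hgal : ∀ i ∈ J, ∀ j ∈ J, D.nu j (b ^ 2) = D.nu i (b ^ 2) := by
    intro i hi j hj
    obtain ⟨γ, g1, g2, g3, g4⟩ := H.gal i hi j hj
    rw [g4 (b ^ 2)]
    have hx1 : x ^ 2 - γ (T : Ω) * x + γ (n : Ω) = 0 := by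
      have := congrArg γ hx
      simp only [map_add, map_sub, map_mul, map_pow, map_zero, g1] at this
      exact this
    have hTT : γ (T : Ω) = (T : Ω) := by
      by_contra hcon
      apply hxK
      have h1 : x = ((n : Ω) - γ (n : Ω)) / ((T : Ω) - γ (T : Ω)) := by
        rw [eq_div_iff (sub_ne_zero.2 (Ne.symm hcon))]
        linear_combination hx1 - hx
      rw [h1]
      exact D.K.div_mem (D.K.sub_mem n.2 (g3 _ n.2)) (D.K.sub_mem T.2 (g3 _ T.2))
    have hnn : γ (n : Ω) = (n : Ω) := by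
      rw [hTT] at hx1
      linear_combination hx1 - hx
    have e : b ^ 2 = (T : Ω) ^ 2 / 4 - (n : Ω) := by
      linear_combination hb2 - ((T : Ω) + 2 * Q ^ 2) / 4 * hTQ
    rw [e]
    simp only [map_sub, map_div₀, map_pow, map_ofNat, hTT, hnn]
  have hlow : ∀ i ∈ J, 1 ≤ D.nu i b := by
    intro i hi
    by_contra hcon
    push Not at hcon
    have hall : ∀ j ∈ J, D.nu j (b ^ 2) < 1 := by
      intro j hj
      rw [hgal i hi j hj, map_pow]
      exact pow_lt_one₀ ((D.nu i).nonneg _) hcon (by norm_num)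
    have hall' : ∀ j, D.nu j (b ^ 2) ≤ 1 := by
      intro j
      by_cases hj : j ∈ J
      · exact (hall j hj).le
      · rw [map_pow]
        exact pow_le_one₀ ((D.nu j).nonneg _) (hout j hj).1
    have hprod := hpf (b ^ 2) (hRO _ hb2R) (pow_ne_zero 2 hb0)
    have hlt : ∏ j, D.nu j (b ^ 2) < 1 := by
      have h1 : ∏ j, D.nu j (b ^ 2) < ∏ j : I, (1 : ℝ) := by
        refine Finset.prod_lt_prod (fun j _ => ?_) (fun j _ => hall' j) ⟨i, Finset.mem_univ i, ?_⟩
        · exact (D.nu j).pos (pow_ne_zero 2 hb0)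
        · exact hall i hi
      simpa using h1
    linarith
  -- the last item
  have hlast : ∀ i ∈ J, D.nu i ((s - 3 / 2 * Q * b) ^ 2 - (Q ^ 2 - b) ^ 3) ≤ Real.exp α := by
    intro i hi
    have e1 : (s ^ 2 + 9 / 4 * Q ^ 2 * b ^ 2 - Q ^ 6 - 3 * Q ^ 2 * b ^ 2)
        + (3 * s * Q - 3 * Q ^ 4 - b ^ 2) * b = y ^ 2 - x ^ 3 := by
      have hx' : x = Q ^ 2 + b := by rw [hb]; ring
      rw [hys, hx']; ring
    have e2 : (s ^ 2 + 9 / 4 * Q ^ 2 * b ^ 2 - Q ^ 6 - 3 * Q ^ 2 * b ^ 2)
        - (3 * s * Q - 3 * Q ^ 4 - b ^ 2) * b = (s - 3 / 2 * Q * b) ^ 2 - (Q ^ 2 - b) ^ 3 := by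
      ring
    have h94 : (9 / 4 : Ω) ∈ D.K := by
      have := h2K (9 / 4)
      push_cast at this
      exact this
    have h3 : (3 : Ω) ∈ D.K := by
      have := h2K 3
      push_cast at this
      exact this
    obtain ⟨-, -, h4⟩ := conj_le D hP b
      (s ^ 2 + 9 / 4 * Q ^ 2 * b ^ 2 - Q ^ 6 - 3 * Q ^ 2 * b ^ 2)
      (3 * s * Q - 3 * Q ^ 4 - b ^ 2) hbK hb2K
      (D.K.sub_mem (D.K.sub_mem (D.K.add_mem (pow_mem hsK 2)
        (D.K.mul_mem (D.K.mul_mem h94 (pow_mem hQK 2)) hb2K)) (pow_mem hQK 6))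
        (D.K.mul_mem (D.K.mul_mem h3 (pow_mem hQK 2)) hb2K))
      (D.K.sub_mem (D.K.sub_mem (D.K.mul_mem (D.K.mul_mem h3 hsK) hQK)
        (D.K.mul_mem h3 (pow_mem hQK 4))) hb2K)
      (by rw [e1]; exact D.O.sub_mem (D.O.pow_mem H.yO 2) (D.O.pow_mem H.xO 3))
    have h5 := h4 i
    rw [e1, e2] at h5
    exact h5.trans (H.sd i hi)
  exact ⟨Q, s, hQR, hsR, hb2R, hb0, hys, fun i hi => ⟨hlow i hi, hup i hi⟩, hout, hlast⟩

end Pool.Agent.Helper9.JN
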